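import Mathlib
import Pool.Agent.MP_2b113a_an.C3.Iface
import Pool.Agent.MP_2b113a_an.H83.Offsets

/-!
The orbit mass is not concentrated at small scales (three dimensions).
-/

namespace Pool.Agent.MP_2b113a_an.H67

open MeasureTheory ProbabilityTheory Filter Topology
open scoped ENNReal NNReal Real
open Pool.Agent.MP_2b113a_an.C3

variable {Ω : Type} [MeasurableSpace Ω] {M : Measure Ω}

/-- The share of the last two coordinates. -/
noncomputable def shr (v : T3) : ℝ := (v.2.1 ^ 2 + v.2.2 ^ 2) / nsq v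

/-- A weight on directions vanishing on the first axis and on its orthogonal plane. -/
noncomputable def psi (v : T3) : ℝ≥0∞ := ENNReal.ofReal (wg v / nsq v ^ 2)

@[fun_prop] lemma measurable_psi : Measurable psi := by unfold psi wg; fun_prop

lemma shr_nonneg (v : T3) : 0 ≤ shr v := div_nonneg (by positivity) (nsq_nonneg _)

lemma shr_le_one (v : T3) : shr v ≤ 1 :=
  div_le_one_of_le₀ (by unfold nsq; linarith [sq_nonneg v.1]) (nsq_nonneg _)

lemma psi_eq (v : T3) : psi v = ENNReal.ofReal (shr v * (1 - shr v)) := by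
  rw [psi, shr]
  congr 1
  by_cases h : nsq v = 0
  · simp [h]
  · field_simp
    simp only [nsq, wg]; ring

lemma psi_le_one (v : T3) : psi v ≤ 1 := by
  rw [psi_eq, ENNReal.ofReal_le_one]
  nlinarith [shr_nonneg v, shr_le_one v]

/-- The planar shadow of a vector. -/
noncomputable def pl (v : T3) : ℝ × ℝ := (v.1, √(v.2.1 ^ 2 + v.2.2 ^ 2))

lemma nsq_pl (v : T3) : H83.nsq (pl v) = nsq v := by
  simp only [H83.nsq, pl, nsq]
  rw [Real.sq_sqrt (by positivity)]; ring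

lemma shr_pl (v : T3) : H83.shr (pl v) = shr v := by
  rw [H83.shr, nsq_pl, shr]
  simp only [pl]
  rw [Real.sq_sqrt (by positivity)]

lemma nsq_pl_sub (v w : T3) : H83.nsq (pl w - pl v) ≤ nsq (w - v) := by
  simp only [H83.nsq, pl, nsq, Prod.fst_sub, Prod.snd_sub]
  set A := w.2.1 ^ 2 + w.2.2 ^ 2 with hA
  set B := v.2.1 ^ 2 + v.2.2 ^ 2 with hB
  have a0 : 0 ≤ A := by positivity
  have b0 : 0 ≤ B := by positivity
  have h1 : √A ^ 2 = A := Real.sq_sqrt a0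
  have h2 : √B ^ 2 = B := Real.sq_sqrt b0
  have h3 : w.2.1 * v.2.1 + w.2.2 * v.2.2 ≤ √A * √B := by
    rw [← Real.sqrt_mul a0]
    refine Real.le_sqrt_of_sq_le ?_
    rw [hA, hB]
    nlinarith [sq_nonneg (w.2.1 * v.2.2 - w.2.2 * v.2.1)]
  nlinarith

lemma shr_sub_sq (v q : T3) (hv : 0 < nsq v) :
    (shr (v + q) - shr v) ^ 2 * nsq v ≤ nsq q := by
  have h := H83.shr_sub_sq (pl v) (pl (v + q) - pl v) (by rw [nsq_pl]; exact hv)
  rw [add_sub_cancel, shr_pl, shr_pl, nsq_pl] at h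
  have h2 := nsq_pl_sub v (v + q)
  rw [add_sub_cancel_left] at h2
  exact h.trans h2

lemma psi_slow (q : T3) (η : ℝ) (hη : 0 < η) :
    ∃ R : ℝ, ∀ v, R < nsq v → psi (v + q) ≤ psi v + ENNReal.ofReal η := by
  refine ⟨nsq q / η ^ 2, fun v hv => ?_⟩
  have h0 : 0 < nsq v := lt_of_le_of_lt (div_nonneg (nsq_nonneg _) (sq_nonneg _)) hv
  have h1 := shr_sub_sq v q h0
  rw [div_lt_iff₀ (by positivity)] at hv
  have h2 : (shr (v + q) - shr v) ^ 2 ≤ η ^ 2 := by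
    refine le_of_mul_le_mul_right ?_ h0
    nlinarith
  have h3 := abs_le.1 (abs_le_of_sq_le_sq' h2 hη.le |> abs_le.2)
  have a1 := shr_nonneg v
  have a2 := shr_le_one v
  have a3 := shr_nonneg (v + q)
  have a4 := shr_le_one (v + q)
  rw [psi_eq, psi_eq, ← ENNReal.ofReal_add (by nlinarith) hη.le]
  refine ENNReal.ofReal_le_ofReal ?_
  rcases le_total (shr v) (shr (v + q)) with h | h <;> nlinarith [h3.1, h3.2]

lemma psi_step {l : ℝ} (hl : 2 ≤ l) (v : T3) :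
    shr v * (1 - shr v) ≤ 2 * (shr (l⁻¹ * v.1, v.2.1, l * v.2.2) - shr v) := by
  have l0 : 0 < l := by linarith
  by_cases h : nsq v = 0
  · rw [nsq_eq_zero.1 h]
    simp [shr]
  have h' : 0 < nsq v := lt_of_le_of_ne (nsq_nonneg _) (Ne.symm h)
  have l2 : 4 ≤ l ^ 2 := by nlinarith
  simp only [shr, nsq] at h' ⊢
  set x := v.1 ^ 2
  set y := v.2.1 ^ 2
  set z := v.2.2 ^ 2
  have hx : 0 ≤ x := sq_nonneg _
  have hy : 0 ≤ y := sq_nonneg _
  have hz : 0 ≤ z := sq_nonneg _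
  set L := l ^ 2 with hL
  set w := y + z with hw
  have hw0 : 0 ≤ w := by positivity
  have s0 : 0 < x + w := by linarith
  have p1 : 0 < x + L * w := by nlinarith
  have p2 : 0 < x + L * (y + L * z) := by
    have : w ≤ y + L * z := by nlinarith
    nlinarith
  have e : (y + (l * v.2.2) ^ 2) / ((l⁻¹ * v.1) ^ 2 + y + (l * v.2.2) ^ 2) =
      L * (y + L * z) / (x + L * (y + L * z)) := by
    have : (l⁻¹ * v.1) ^ 2 + y + (l * v.2.2) ^ 2 = (x + L * (y + L * z)) / L := by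
      simp only [x, z, hL]; field_simp; ring
    rw [this, div_div_eq_mul_div]
    congr 1
    simp only [z, hL]; ring
  have e1 : L * w / (x + L * w) ≤ L * (y + L * z) / (x + L * (y + L * z)) := by
    rw [div_le_div_iff₀ p1 p2]
    have : L * w ≤ L * (y + L * z) := by
      have : w ≤ y + L * z := by nlinarith
      nlinarith
    nlinarith [mul_le_mul_of_nonneg_left this hx]
  have e0 : x + y + z = x + w := by rw [hw]; ring
  have e2 : w / (x + w) * (1 - w / (x + w)) = x * w / ((x + w) * (x + w)) := by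
    field_simp; ring
  have e3 : 2 * (L * w / (x + L * w) - w / (x + w)) =
      2 * (L - 1) * (x * w) / ((x + w) * (x + L * w)) := by
    field_simp; ring
  rw [e, e0]
  refine le_trans ?_ (show 2 * (L * w / (x + L * w) - w / (x + w)) ≤ _ by linarith)
  rw [e2, e3, div_le_div_iff₀ (by positivity) (by positivity)]
  have a : x + L * w ≤ 2 * (L - 1) * (x + w) := by nlinarith
  calc x * w * ((x + w) * (x + L * w)) ≤ x * w * ((x + w) * (2 * (L - 1) * (x + w))) := by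
        gcongr
    _ = _ := by ring

lemma psi_sum {l : ℝ} (hl : 2 ≤ l) (N : ℕ) (u : T3) :
    ∑ k ∈ Finset.range N, psi (dgi l k u) ≤ 2 := by
  have h : ∑ k ∈ Finset.range N, shr (dgi l k u) * (1 - shr (dgi l k u)) ≤ 2 := by
    have h1 : ∀ k, dgi l (k + 1) u =
        (l⁻¹ * (dgi l k u).1, (dgi l k u).2.1, l * (dgi l k u).2.2) := fun k => by
      ext <;> simp only [dgi, pow_succ, mul_inv] <;> ring
    calc _ ≤ ∑ k ∈ Finset.range N, 2 * (shr (dgi l (k + 1) u) - shr (dgi l k u)) :=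
          Finset.sum_le_sum fun k _ => by rw [h1]; exact psi_step hl _
      _ = 2 * (shr (dgi l N u) - shr (dgi l 0 u)) := by
          rw [← Finset.mul_sum, Finset.sum_range_sub fun k => shr (dgi l k u)]
      _ ≤ 2 := by linarith [shr_le_one (dgi l N u), shr_nonneg (dgi l 0 u)]
  simp_rw [psi_eq]
  rw [← ENNReal.ofReal_sum_of_nonneg fun k _ =>
    mul_nonneg (shr_nonneg _) (sub_nonneg.2 (shr_le_one _))]
  exact (ENNReal.ofReal_le_ofReal h).trans (by simp)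

lemma psi_lower {R₂ R₃ : T3 ≃ₗ[ℝ] T3} (h : Gen R₂ R₃) : ∃ γ : ℝ, 0 < γ ∧ ∀ u : T3, u ≠ 0 →
    ENNReal.ofReal γ ≤ psi u + psi (R₂.symm u) + psi (R₃.symm u) := by
  obtain ⟨γ, hγ, hb⟩ := h.three_frames
  refine ⟨γ, hγ, fun u hu => ?_⟩
  have h0 : 0 < nsq u := lt_of_le_of_ne (nsq_nonneg _) fun h0 => hu (nsq_eq_zero.1 h0.symm)
  have a1 := wg_nonneg u
  have a2 := wg_nonneg (R₂.symm u)
  have a3 := wg_nonneg (R₃.symm u)
  rw [psi, psi, psi, h.o₂.symm u, h.o₃.symm u, ← ENNReal.ofReal_add (by positivity)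
    (by positivity), ← ENNReal.ofReal_add (by positivity) (by positivity), ← add_div, ← add_div]
  exact ENNReal.ofReal_le_ofReal ((le_div_iff₀ (by positivity)).2 (hb u))

lemma nsq_dgi_le {l : ℝ} (hl : 2 ≤ l) (k : ℕ) (u : T3) :
    nsq (dgi l k u) ≤ (l ^ 2) ^ k * nsq u ∧ nsq u ≤ (l ^ 2) ^ k * nsq (dgi l k u) := by
  have h1 : 1 ≤ l ^ k := one_le_pow₀ (by linarith)
  rw [← pow_mul, mul_comm 2, pow_mul]
  simp only [nsq, dgi]
  set a := l ^ k
  have h2 : 1 ≤ a ^ 2 := one_le_pow₀ h1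
  have h3 : (a⁻¹ * u.1) ^ 2 * a ^ 2 = u.1 ^ 2 := by field_simp
  have h4 := sq_nonneg (a⁻¹ * u.1)
  have h5 := sq_nonneg u.2.1
  have h7 := sq_nonneg u.2.2
  have h6 : 1 ≤ a ^ 2 * a ^ 2 := one_le_mul_of_one_le_of_one_le h2 h2
  constructor
  · rw [← h3]
    nlinarith [mul_le_mul_of_nonneg_left h6 h4, mul_le_mul_of_nonneg_left h2 h5]
  · rw [← h3]
    nlinarith [mul_le_mul_of_nonneg_left h6 h7, mul_le_mul_of_nonneg_left h2 h5]

lemma bmp_shift' (q : T3) {ε : ℝ} (hε : 0 < ε) :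
    ∃ s₀ : ℝ, ∀ s, s₀ ≤ s → ∀ v,
      bmp s v ≤ bmp s (v + q) + ENNReal.ofReal ε * bmp (2 * s) v := by
  set η : ℝ := min (ε / 3) 1 with hη
  have hη0 : 0 < η := lt_min (by positivity) one_pos
  have hη1 : η ≤ ε / 3 := min_le_left _ _
  have hη2 : η ≤ 1 := min_le_right _ _
  refine ⟨nsq q / η ^ 2 + 1, fun s hs v => ?_⟩
  have hq := nsq_nonneg q
  have hv := nsq_nonneg v
  have hs0 : 0 < s := lt_of_lt_of_le (by positivity) hs
  simp only [bmp]
  rw [← ENNReal.ofReal_mul hε.le, ← ENNReal.ofReal_add (by positivity) (by positivity)]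
  refine ENNReal.ofReal_le_ofReal ?_
  set A := nsq v / (4 * s) with hA
  have hA0 : 0 ≤ A := by positivity
  have e1 : -nsq v / (2 * s) = -A + -A := by rw [hA]; field_simp; ring
  have e2 : -nsq v / (2 * (2 * s)) = -A := by rw [hA]; field_simp; ring
  have hqs : nsq q ≤ η ^ 2 * s := by
    have : nsq q / η ^ 2 ≤ s := by linarith
    rwa [div_le_iff₀ (by positivity), mul_comm] at this
  have e3 : -A + -A + -(2 * η * A + η) ≤ -nsq (v + q) / (2 * s) := by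
    rw [hA, le_div_iff₀ (by positivity)]
    have h1 : (-(nsq v / (4 * s)) + -(nsq v / (4 * s)) + -(2 * η * (nsq v / (4 * s)) + η)) *
        (2 * s) = -nsq v - η * nsq v - 2 * η * s := by field_simp; ring
    rw [h1]
    have h3 : η * nsq q ≤ η ^ 2 * s := (mul_le_of_le_one_left hq hη2).trans hqs
    have h2 : η * (nsq (v + q) - nsq v) ≤ η * (η * nsq v + 2 * η * s) := by
      simp only [nsq, Prod.fst_add, Prod.snd_add] at hqs h3 ⊢
      nlinarith [sq_nonneg (η * v.1 - q.1), sq_nonneg (η * v.2.1 - q.2.1),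
        sq_nonneg (η * v.2.2 - q.2.2)]
    have := le_of_mul_le_mul_left h2 hη0
    linarith
  rw [e1, e2]
  refine le_trans ?_ (add_le_add_left (Real.exp_le_exp.2 e3) _)
  rw [Real.exp_add (-A + -A), Real.exp_add (-A)]
  have c1 := Real.add_one_le_exp (-(2 * η * A + η))
  have c2 : Real.exp (-A) ≤ 1 := Real.exp_le_one_iff.2 (by linarith)
  have c3 : A * Real.exp (-A) ≤ 1 := by
    rw [Real.exp_neg, ← div_eq_mul_inv, div_le_one (Real.exp_pos _)]
    linarith [Real.add_one_le_exp A]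
  have p := Real.exp_pos (-A)
  set E := Real.exp (-A)
  have c4 : E * (2 * η * A + η) ≤ ε := by nlinarith
  nlinarith [mul_le_mul_of_nonneg_left c1 (mul_pos p p).le, mul_le_mul_of_nonneg_left c4 p.le]

section

variable (F : NSFlow Ω M) [IsProbabilityMeasure M]

lemma offsets_step (hW : ∀ᵐ ω ∂M, ∫⁻ q, F.W q ω = ∞) {ρ s : Ω → ℝ≥0∞} (hρ : Measurable ρ)
    (hs : Measurable s) {C : ℝ≥0} (h1 : ∀ ω, ρ ω ≤ C) (h0 : ∀ ω, ρ ω ≠ 0) (h2 : ∀ ω, s ω ≤ C)
    (h3 : ∀ ω, 1 ≤ C * s ω) (hi : F.Inv s) (hR : F.Rel ρ s) {s₁ s₂ : ℕ → ℝ}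
    (ht : Tendsto s₁ atTop atTop) (hp : ∀ i, 0 < s₁ i) (h12 : ∀ i, s₁ i ≤ s₂ i)
    {ε : ℝ≥0∞} (hε : ε ≠ 0) :
    ∀ᶠ i in atTop,
      ∫⁻ ω, (F.ms (s₂ i) ω)⁻¹ * F.nm (fun _ => 1) (fun v => bmp (s₁ i) v * psi v) ω * s ω ∂M ≤
        ∫⁻ ω, (F.nm ρ (bmp (s₂ i)) ω)⁻¹ * F.nm ρ (fun v => bmp (s₁ i) v * psi v) ω * ρ ω ∂M
          + ε := by
  obtain ⟨δ, hδ, hδ'⟩ := ENNReal.exists_nnreal_pos_mul_lt (a := 2 * C * C + 1)
    (by simp [ENNReal.mul_ne_top]) hε
  have hδ0 : (δ : ℝ≥0∞) ≠ 0 := by simpa using hδ.ne'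
  have hp2 : ∀ i, 0 < s₂ i := fun i => (hp i).trans_le (h12 i)
  let β : ℕ → T3 → ℝ≥0∞ := fun i v => bmp (s₁ i) v * psi v
  have mβ : ∀ i, Measurable (β i) := fun i => by simp only [β]; fun_prop
  have b1 : ∀ i v, β i v ≤ bmp (s₂ i) v := fun i v =>
    (mul_le_mul_right (psi_le_one v) _).trans ((mul_one _).le.trans (bmp_mono (hp i) (h12 i) v))
  have b2 : ∀ i v, bmp (s₂ i) v ≤ bmp (2 * s₂ i) v := fun i v =>
    bmp_mono (hp2 i) (by linarith [hp2 i]) v
  have sv1 : F.SV β s₂ := F.sv_of hW ht h12 psi_le_one psi_slow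
  have sv2 : F.SV (fun i => bmp (s₂ i)) s₂ := by
    have := F.sv_of hW (tendsto_atTop_mono h12 ht) (fun _ => le_rfl) (χ := fun _ => 1)
      (fun _ => le_rfl) fun _ _ _ => ⟨0, fun _ _ => le_self_add⟩
    simpa only [mul_one] using this
  let Φ : ℕ → Ω → ℝ≥0∞ := fun i ω => (F.ms (s₂ i) ω)⁻¹ * F.nm (fun _ => 1) (β i) ω
  have mΦ : ∀ i, Measurable (Φ i) := fun i => by
    have := mβ i
    simp only [Φ]; fun_prop
  have bΦ : ∀ i ω, Φ i ω ≤ (1 : ℝ≥0) := fun i ω =>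
    (mul_le_mul_right (F.nm_mono _ (b1 i) ω) _).trans (ENNReal.inv_mul_le_one _)
  have fin := fun i => F.nm_bmp_lt_top (r := fun _ => 1) measurable_const (C := 1)
    (fun _ => le_rfl) (hp2 i)
  have A := F.asymp_inv hρ hs h1 h2 hR mΦ bΦ (fun q => ?_) hδ0
  · filter_upwards [A, F.nm_rel hρ hs h1 h2 hR mβ hp2 (fun i v => (b1 i v).trans (b2 i v)) sv1 hδ0,
      F.nm_rel hs hρ h2 h1 hR.symm (fun i => measurable_bmp _) hp2 b2 sv2 hδ0] with i a1 a2 a3
    have m1 := mβ i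
    refine a1.trans ?_
    calc _ ≤ ∫⁻ ω, (F.nm ρ (bmp (s₂ i)) ω)⁻¹ * F.nm ρ (β i) ω * ρ ω +
            C * C * ((F.ms (s₂ i) ω)⁻¹ * (F.nm s (β i) ω - F.nm ρ (β i) ω) +
              (F.ms (s₂ i) ω)⁻¹ * (F.nm ρ (bmp (s₂ i)) ω - F.nm s (bmp (s₂ i)) ω)) ∂M + δ := by
          refine add_le_add_left (lintegral_mono_ae ?_) _
          filter_upwards [fin i, F.nm_bmp_lt_top hρ h1 (hp2 i)] with ω f1 f2
          have := H83.ratio_le (F.nm_mono (fun _ => 1) (b1 i) ω) (F.nm_mono ρ (b1 i) ω)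
            (F.ms_ne_zero _ ω) f1.ne (F.nm_ne_zero hρ (measurable_bmp _) h0 (bmp_ne_zero _) ω) f2.ne
            (ne_top_of_le_ne_top ENNReal.coe_ne_top (h2 ω)) (h3 ω)
          rw [F.nm_inv hi m1, F.nm_inv hi (measurable_bmp _)]
          refine (mul_le_mul_left this _).trans ?_
          rw [add_mul]
          refine add_le_add_right ?_ _
          rw [mul_comm _ (ρ ω), ← mul_assoc]
          exact mul_le_mul_left (mul_le_mul_left (h1 ω) _) _
      _ ≤ ∫⁻ ω, (F.nm ρ (bmp (s₂ i)) ω)⁻¹ * F.nm ρ (β i) ω * ρ ω ∂M + C * C * (δ + δ) + δ := by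
          rw [lintegral_add_left (by fun_prop), lintegral_const_mul _ (by fun_prop),
            lintegral_add_left (by fun_prop)]
          gcongr
      _ ≤ _ := by
          rw [add_assoc]
          refine add_le_add_right (le_trans (le_of_eq ?_) hδ'.le) _
          ring
  · refine ENNReal.tendsto_nhds_zero.2 fun e he => ?_
    obtain ⟨η, hη, hη'⟩ := ENNReal.exists_nnreal_pos_mul_lt (a := 256) (by simp)
      (ENNReal.half_pos he.ne').ne'
    obtain ⟨s₀, hs₀⟩ := bmp_shift' (-q) (ε := η) hη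
    filter_upwards [sv1 (-q) (e / 2) (ENNReal.half_pos he.ne').ne',
      (tendsto_atTop_mono h12 ht).eventually_ge_atTop s₀] with i ⟨e₁, m₁, k₁, j₁⟩ hi
    have m1 := mβ i
    have j₂ : ∫⁻ ω, (F.ms (s₂ i) ω)⁻¹ * (η * F.ms (2 * s₂ i) ω) ∂M ≤ e / 2 := by
      simp_rw [mul_left_comm _ (η : ℝ≥0∞)]
      rw [lintegral_const_mul _ (by fun_prop)]
      exact (mul_le_mul_right (F.out_mass (hp2 i)) _).trans hη'.le
    rw [← ENNReal.add_halves e]
    refine le_trans ?_ (add_le_add j₁ j₂)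
    rw [← lintegral_add_left (by fun_prop)]
    refine lintegral_mono_ae ?_
    filter_upwards [fin i, (F.qmp q).ae (fin i)] with ω f1 f2
    have w0 := F.W_ne_zero q ω
    have w1 := F.W_ne_top q ω
    have c1 : F.nm (fun _ => 1) (β i) (F.τ q ω) * F.W q ω ≤
        F.nm (fun _ => 1) (β i) ω + F.nm (fun _ => 1) e₁ ω := by
      rw [F.nm_τ, ← F.nm_add measurable_const m1]
      exact lintegral_mono fun u => mul_le_mul_right (by rw [sub_eq_add_neg]; exact k₁ u) _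
    have c2 : F.ms (s₂ i) ω ≤ F.ms (s₂ i) (F.τ q ω) * F.W q ω + η * F.ms (2 * s₂ i) ω := by
      rw [NSFlow.ms, NSFlow.ms, F.nm_τ, ← F.nm_const_mul measurable_const (measurable_bmp _),
        NSFlow.nm, NSFlow.nm,
        ← lintegral_add_left (by fun_prop)]
      refine lintegral_mono fun u => ?_
      rw [← mul_add, sub_eq_add_neg, ← ENNReal.ofReal_coe_nnreal]
      exact mul_le_mul_right (hs₀ _ hi u) _
    have c3 := mul_le_mul_left (F.nm_mono (fun _ => 1) (b1 i) (F.τ q ω)) (F.W q ω)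
    have c4 : Φ i (F.τ q ω) = (F.ms (s₂ i) (F.τ q ω) * F.W q ω)⁻¹ *
        (F.nm (fun _ => 1) (β i) (F.τ q ω) * F.W q ω) := by
      rw [ENNReal.mul_inv (Or.inr w1) (Or.inr w0), mul_mul_mul_comm, ENNReal.inv_mul_cancel w0 w1,
        mul_one]
    rw [tsub_le_iff_left, c4]
    exact H83.ratio_le' c3 c1 c2 (mul_ne_zero (F.ms_ne_zero _ _) w0) (ENNReal.mul_ne_top f2.ne w1)
      (F.ms_ne_zero _ _) f1.ne

lemma offsets_frame (hW : ∀ᵐ ω ∂M, ∫⁻ q, F.W q ω = ∞) {l : ℝ} (hl : 2 ≤ l) (H : Hyp F l)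
    {ε : ℝ≥0∞} (hε : ε ≠ 0) : ∀ᶠ N : ℕ in atTop, ∀ᶠ i : ℕ in atTop,
      ∫⁻ ω, (F.ms ((l ^ 2) ^ (i + 2 * N)) ω)⁻¹ *
        F.nm (fun _ => 1) (fun v => bmp ((l ^ 2) ^ i) v * psi v) ω ∂M ≤ ε := by
  obtain ⟨c⟩ := H.cond
  obtain ⟨δ, hδ, hδ'⟩ := ENNReal.exists_nnreal_pos_mul_lt (a := 3) (by simp)
    (ENNReal.half_pos hε).ne'
  have hδ0 : δ ≠ 0 := hδ.ne'
  obtain ⟨N₀, hN₀⟩ := c.small δ⁻¹ (ε / 2) (ENNReal.half_pos hε).ne'
  have κ1 : 1 < l ^ 2 := by nlinarith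
  have κ0 : 0 < l ^ 2 := by positivity
  have ht : Tendsto (fun i : ℕ => (l ^ 2) ^ i) atTop atTop := tendsto_pow_atTop_atTop_of_one_lt κ1
  have mono : ∀ {a b : ℕ}, a ≤ b → (l ^ 2) ^ a ≤ (l ^ 2) ^ b := fun h =>
    pow_le_pow_right₀ κ1.le h
  filter_upwards [eventually_ge_atTop N₀] with N hN
  have step := fun k => offsets_step F hW (H.Y k).meas_ρ (c.meas k) (H.Y k).ρ_le
    (H.Y k).ρ_ne_zero (c.le k) (c.ge k) (c.inv k) (c.rel k)
    (s₂ := fun i => (l ^ 2) ^ (i + 2 * N)) ht (fun i => by positivity)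
    (fun i => mono (by omega)) (ε := (N₀ : ℝ≥0∞)⁻¹) (by simp)
  filter_upwards [(eventually_all_finset (Finset.range N₀)).2 fun k _ => step k] with i hi
  set φ : Ω → ℝ≥0∞ := fun ω => (F.ms ((l ^ 2) ^ (i + 2 * N)) ω)⁻¹ *
    F.nm (fun _ => 1) (fun v => bmp ((l ^ 2) ^ i) v * psi v) ω with hφ
  have mφ : Measurable φ := by rw [hφ]; fun_prop
  have φ1 : ∀ ω, φ ω ≤ 1 := fun ω => by
    refine (mul_le_mul_right (F.nm_mono _ (fun v => ?_) ω) _).trans (ENNReal.inv_mul_le_one _)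
    exact (mul_le_mul_right (psi_le_one v) _).trans
      ((mul_one _).le.trans (bmp_mono (by positivity) (mono (by omega)) v))
  set r := (l ^ 2) ^ (i + N) with hr
  have b : ∀ k ∈ Finset.range N₀, ∫⁻ ω, φ ω * c.s k ω ∂M ≤ ∫⁻ ω, (F.ms r ω)⁻¹ *
      F.nm (fun _ => 1) (fun v => bmp r v * psi (dgi l k v)) ω ∂M + (N₀ : ℝ≥0∞)⁻¹ := by
    intro k hk
    have hk' : k ≤ N := (Finset.mem_range.1 hk).le.trans hN
    refine (hi k hk).trans (add_le_add_left ?_ _)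
    refine le_trans (lintegral_mono fun ω => mul_le_mul_left ?_ _)
      ((H.Y k).inv _ (by fun_prop)).le
    rw [(H.Y k).nm_ρ (by linarith) (by fun_prop), (H.Y k).nm_ρ (by linarith) (by fun_prop),
      ENNReal.mul_inv (Or.inl ((H.Y k).ρ_ne_zero ω)) (Or.inl ((H.Y k).ρ_ne_top ω)),
      mul_mul_mul_comm, ENNReal.inv_mul_cancel ((H.Y k).ρ_ne_zero ω) ((H.Y k).ρ_ne_top ω), one_mul]
    have pk : 0 < (l ^ 2) ^ k := by positivity
    refine mul_le_mul' (ENNReal.inv_le_inv.2 (F.nm_mono _ (fun v => bmp_le_of ?_) _))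
      (F.nm_mono _ (fun v => mul_le_mul_left (bmp_le_of ?_) _) _)
    · rw [div_le_div_iff₀ (by positivity) (by positivity)]
      have h1 : (l ^ 2) ^ k * r ≤ (l ^ 2) ^ (i + 2 * N) := by
        rw [hr, ← pow_add]; exact mono (by omega)
      calc _ ≤ (l ^ 2) ^ k * nsq v * (2 * r) := by gcongr; exact (nsq_dgi_le hl k v).1
        _ = nsq v * (2 * ((l ^ 2) ^ k * r)) := by ring
        _ ≤ _ := by have := nsq_nonneg v; gcongr
    · rw [div_le_div_iff₀ (by positivity) (by positivity)]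
      have h1 : (l ^ 2) ^ k * (l ^ 2) ^ i ≤ r := by
        rw [hr, ← pow_add]; exact mono (by omega)
      calc _ ≤ (l ^ 2) ^ k * nsq (dgi l k v) * (2 * (l ^ 2) ^ i) := by
            gcongr; exact (nsq_dgi_le hl k v).2
        _ = nsq (dgi l k v) * (2 * ((l ^ 2) ^ k * (l ^ 2) ^ i)) := by ring
        _ ≤ _ := by have := nsq_nonneg (dgi l k v); gcongr
  have b2 : ∑ k ∈ Finset.range N₀, ∫⁻ ω, (F.ms r ω)⁻¹ *
      F.nm (fun _ => 1) (fun v => bmp r v * psi (dgi l k v)) ω ∂M ≤ 2 := by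
    rw [← lintegral_finsetSum _ fun k _ => by fun_prop]
    refine (lintegral_mono fun ω => ?_).trans (le_of_eq (by simp : ∫⁻ _, 2 ∂M = 2))
    rw [← Finset.mul_sum]
    have : ∑ k ∈ Finset.range N₀, F.nm (fun _ => 1) (fun v => bmp r v * psi (dgi l k v)) ω ≤
        2 * F.ms r ω := by
      rw [NSFlow.ms, ← F.nm_const_mul measurable_const (measurable_bmp _)]
      simp only [NSFlow.nm]
      rw [← lintegral_finsetSum _ fun k _ => by fun_prop]
      refine lintegral_mono fun u => ?_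
      rw [← Finset.mul_sum, ← Finset.mul_sum, mul_comm 2]
      exact mul_le_mul_right (mul_le_mul_right (psi_sum hl N₀ u) _) _
    refine (mul_le_mul_right this _).trans ?_
    rw [mul_left_comm]
    exact (mul_le_mul_right (ENNReal.inv_mul_le_one _) _).trans (mul_one _).le
  have b3 : ∑ k ∈ Finset.range N₀, ∫⁻ ω, φ ω * c.s k ω ∂M ≤ 3 := by
    refine (Finset.sum_le_sum b).trans ?_
    rw [Finset.sum_add_distrib, Finset.sum_const, Finset.card_range, nsmul_eq_mul,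
      show (3 : ℝ≥0∞) = 2 + 1 by norm_num]
    exact add_le_add b2 (ENNReal.mul_inv_le_one _)
  have b4 : ∫⁻ ω in {ω | ∑ k ∈ Finset.range N₀, c.s k ω < (δ⁻¹ : ℝ≥0)}, φ ω ∂M ≤ ε / 2 :=
    (lintegral_mono φ1).trans (by simpa using hN₀)
  have b5 := (c.bound δ⁻¹ N₀ mφ).trans (add_le_add b3 (mul_le_mul_right b4 _))
  have b6 := mul_le_mul_right b5 δ
  rw [mul_add, ← mul_assoc, ← mul_assoc, ← ENNReal.coe_mul, mul_inv_cancel₀ hδ0, ENNReal.coe_one,
    one_mul, one_mul] at b6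
  exact b6.trans ((add_le_add_left hδ'.le _).trans (ENNReal.add_halves ε).le)

end

theorem emp : EmpStmt := by
  intro Ω _ M _ F l R₂ R₃ hl hG ⟨H₁⟩ ⟨H₂⟩ ⟨H₃⟩ hW ε hε
  obtain ⟨g, hg, hlow⟩ := psi_lower hG
  set γ := ENNReal.ofReal g with hγ
  have γ0 : γ ≠ 0 := by
    rw [hγ, Ne, ENNReal.ofReal_eq_zero, not_le]; exact hg
  have e0 : γ * ε / 3 ≠ 0 := (ENNReal.div_pos (mul_ne_zero γ0 hε) (by simp)).ne'
  obtain ⟨N, ⟨h1, h2⟩, h3⟩ := (((offsets_frame F hW hl H₁ e0).and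
    (offsets_frame (F.rep R₂) (F.rep_top R₂ hW) hl H₂ e0)).and
    (offsets_frame (F.rep R₃) (F.rep_top R₃ hW) hl H₃ e0)).exists
  refine ⟨2 * N, ?_⟩
  filter_upwards [h1, h2, h3] with i a1 a2 a3
  have hk : (kap l : ℝ) = l ^ 2 := rfl
  rw [hk]
  refine (ENNReal.mul_le_mul_iff_right γ0 ENNReal.ofReal_ne_top).1 ?_
  rw [← ENNReal.add_thirds (γ * ε)]
  refine le_trans ?_ (add_le_add (add_le_add a1 a2) a3)
  rw [← lintegral_add_left (by fun_prop), ← lintegral_add_left (by fun_prop),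
    ← lintegral_const_mul _ (by fun_prop)]
  refine lintegral_mono fun ω => ?_
  rw [F.rep_ms hG.o₂, F.rep_ms hG.o₃, F.rep_nm hG.o₂ measurable_const (by fun_prop),
    F.rep_nm hG.o₃ measurable_const (by fun_prop), ← mul_add, ← mul_add, mul_left_comm,
    ← F.nm_add measurable_const (by fun_prop), ← F.nm_add measurable_const (by fun_prop),
    NSFlow.ms, NSFlow.ms, ← F.nm_const_mul measurable_const (measurable_bmp _)]
  refine mul_le_mul_right (lintegral_mono_ae ?_) _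
  filter_upwards [compl_mem_ae_iff.2 (measure_singleton (0 : T3))] with u hu
  refine mul_le_mul_right ?_ _
  rw [hG.o₂.symm.bmp, hG.o₃.symm.bmp, ← mul_add, ← mul_add, mul_comm]
  exact mul_le_mul_right (hlow u hu) _

end Pool.Agent.MP_2b113a_an.H67
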